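import Pool.Agent.W783.Perc.Stmts

set_option autoImplicit false

open MeasureTheory Set

namespace Pool.Agent.W975.PC

open Pool.Agent.W783.PC

theorem graph_eq {n : ℕ} (E : Set (Sym2 (V n))) (R : Set (V n)) (ω ω' : Cfg n)
    (h : ∀ c ∈ Int' R ∩ rel E, ω c = ω' c) : G E ω R = G E ω' R := by
  have key : ∀ (ω ω' : Cfg n), (∀ c ∈ Int' R ∩ rel E, ω c = ω' c) → ∀ x y : V n,
      (G E ω R).Adj x y → (G E ω' R).Adj x y := by
    intro ω ω' h x y ⟨h1, h2, h3, h4, h5, h6, h7⟩
    refine ⟨h1, h2, h3, h4, ?_, ?_, ?_⟩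
    · rw [← h (Sum.inl x) ⟨Or.inl ⟨x, h2, rfl⟩, Or.inl ⟨x, rfl⟩⟩]
      exact h5
    · rw [← h (Sum.inl y) ⟨Or.inl ⟨y, h3, rfl⟩, Or.inl ⟨y, rfl⟩⟩]
      exact h6
    · rw [← h (Sum.inr s(x, y)) ⟨Or.inr ⟨s(x, y), ?_, rfl⟩, Or.inr ⟨s(x, y), h4, rfl⟩⟩]
      · exact h7
      · intro z hz
        rcases Sym2.mem_iff.1 hz with rfl | rfl
        · exact h2
        · exact h3
  ext x y
  exact ⟨key ω ω' h x y, key ω' ω (fun c hc => (h c hc).symm) x y⟩

theorem s_reach_dep : S_reach_dep := by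
  intro n E R x y ω ω' h
  show (G E ω R).Reachable x y ↔ (G E ω' R).Reachable x y
  rw [graph_eq E R ω ω' h]

theorem meas_coord {n : ℕ} (c : Ix n) : MeasurableSet {ω : Cfg n | ω c = true} :=
  measurableSet_eq_fun (measurable_pi_apply c) measurable_const

theorem meas_adj {n : ℕ} (E : Set (Sym2 (V n))) (R : Set (V n)) (x y : V n) :
    MeasurableSet {ω : Cfg n | (G E ω R).Adj x y} := by
  by_cases h : x ≠ y ∧ x ∈ R ∧ y ∈ R ∧ s(x, y) ∈ E
  · have : {ω : Cfg n | (G E ω R).Adj x y} = {ω : Cfg n | ω (Sum.inl x) = true} ∩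
        ({ω : Cfg n | ω (Sum.inl y) = true} ∩ {ω : Cfg n | ω (Sum.inr s(x, y)) = true}) := by
      ext ω
      constructor
      · rintro ⟨-, -, -, -, h5, h6, h7⟩
        exact ⟨h5, h6, h7⟩
      · rintro ⟨h5, h6, h7⟩
        exact ⟨h.1, h.2.1, h.2.2.1, h.2.2.2, h5, h6, h7⟩
    rw [this]
    exact (meas_coord _).inter ((meas_coord _).inter (meas_coord _))
  · have : {ω : Cfg n | (G E ω R).Adj x y} = ∅ := by
      ext ω
      simp only [mem_setOf_eq, mem_empty_iff_false, iff_false]
      rintro ⟨h1, h2, h3, h4, -⟩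
      exact h ⟨h1, h2, h3, h4⟩
    rw [this]
    exact MeasurableSet.empty

theorem meas_walk {n : ℕ} (E : Set (Sym2 (V n))) (R : Set (V n)) (k : ℕ) : ∀ x y : V n,
    MeasurableSet {ω : Cfg n | ∃ p : (G E ω R).Walk x y, p.length = k} := by
  induction k with
  | zero =>
    intro x y
    by_cases h : x = y
    · subst h
      have : {ω : Cfg n | ∃ p : (G E ω R).Walk x x, p.length = 0} = univ := by
        ext ω
        simp only [mem_setOf_eq, mem_univ, iff_true]
        exact ⟨SimpleGraph.Walk.nil, rfl⟩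
      rw [this]
      exact MeasurableSet.univ
    · have : {ω : Cfg n | ∃ p : (G E ω R).Walk x y, p.length = 0} = ∅ := by
        ext ω
        simp only [mem_setOf_eq, mem_empty_iff_false, iff_false]
        rintro ⟨p, hp⟩
        exact h (SimpleGraph.Walk.eq_of_length_eq_zero hp)
      rw [this]
      exact MeasurableSet.empty
  | succ k ih =>
    intro x y
    have : {ω : Cfg n | ∃ p : (G E ω R).Walk x y, p.length = k + 1} =
        ⋃ z : V n, ({ω : Cfg n | (G E ω R).Adj x z} ∩
          {ω : Cfg n | ∃ p : (G E ω R).Walk z y, p.length = k}) := by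
      ext ω
      simp only [mem_setOf_eq, mem_iUnion, mem_inter_iff]
      constructor
      · rintro ⟨p, hp⟩
        cases p with
        | nil => simp at hp
        | cons h q =>
          refine ⟨_, h, q, ?_⟩
          simpa using hp
      · rintro ⟨z, h, q, hq⟩
        refine ⟨SimpleGraph.Walk.cons h q, ?_⟩
        simp [hq]
    rw [this]
    exact MeasurableSet.iUnion fun z => (meas_adj E R x z).inter (ih z y)

theorem s_reach_meas : S_reach_meas := by
  intro n E R x y
  have : {ω : Cfg n | (G E ω R).Reachable x y} =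
      ⋃ k : ℕ, {ω : Cfg n | ∃ p : (G E ω R).Walk x y, p.length = k} := by
    ext ω
    simp only [mem_setOf_eq, mem_iUnion]
    constructor
    · rintro ⟨p⟩
      exact ⟨p.length, p, rfl⟩
    · rintro ⟨k, p, -⟩
      exact ⟨p⟩
  rw [this]
  exact MeasurableSet.iUnion fun k => meas_walk E R k x y

theorem s_perc_meas : S_perc_meas := by
  intro n E x
  have : Perc E x = ⋂ k : ℕ, ⋃ T : Finset (V n), ⋃ (_ : k ≤ T.card), ⋂ y ∈ T,
      {ω : Cfg n | (G E ω univ).Reachable x y} := by
    ext ω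
    simp only [mem_iInter, mem_iUnion, mem_setOf_eq]
    constructor
    · intro h k
      obtain ⟨T, hT, hc⟩ := Set.Infinite.exists_subset_card_eq h k
      exact ⟨T, hc.ge, fun y hy => hT hy⟩
    · intro h hfin
      obtain ⟨T, hc, hT⟩ := h ((cl E ω univ x).ncard + 1)
      have hsub : (T : Set (V n)) ⊆ cl E ω univ x := fun y hy => hT y hy
      have := Set.ncard_le_ncard hsub hfin
      rw [Set.ncard_coe_finset] at this
      omega
  rw [this]
  refine MeasurableSet.iInter fun k => MeasurableSet.iUnion fun T => MeasurableSet.iUnion fun _ =>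
    Finset.measurableSet_biInter T fun y _ => s_reach_meas n E univ x y

theorem s_int_fin : S_int_fin := by
  intro n R hR
  have h2 : {e : Sym2 (V n) | ∀ x ∈ e, x ∈ R}.Finite := by
    refine ((hR.prod hR).image (fun q : V n × V n => s(q.1, q.2))).subset ?_
    intro e he
    induction e using Sym2.ind with
    | _ x y =>
      refine ⟨(x, y), ⟨he x (Sym2.mem_mk_left x y), he y (Sym2.mem_mk_right x y)⟩, rfl⟩
  refine ((hR.image (Sum.inl : V n → Ix n)).union
    (h2.image (Sum.inr : Sym2 (V n) → Ix n))).subset ?_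
  rintro c (⟨x, hx, rfl⟩ | ⟨e, he, rfl⟩)
  · exact Or.inl ⟨x, hx, rfl⟩
  · exact Or.inr ⟨e, he, rfl⟩

end Pool.Agent.W975.PC
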