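import Pool.Agent.W770.PC.SphStms

/-!
# PC-tb: the times at which the Hessian matrix is large and its determinant small
-/

set_option autoImplicit false
set_option maxHeartbeats 400000

open MeasureTheory Set

namespace Pool.Agent.W975.PC

open Pool.Agent.W770.PC

/-- bound for the diagonal entries at the midpoint -/
theorem ent (P Q R b11 b12 b22 δ : ℝ) (h11 : 0 < b11) (hd : 1 ≤ b11 * b22 - b12 ^ 2)
    (h11' : b11 ≤ 2) (hδ : 0 ≤ δ) (h0 : b22 * P - 2 * b12 * Q + b11 * R = 0)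
    (hq : Q ^ 2 - P * R = (b11 * b22 - b12 ^ 2) * δ ^ 2) : |P| ≤ 2 * δ := by
  have e1 : b11 ^ 2 * (Q ^ 2 - P * R) = (b11 * Q - b12 * P) ^ 2 +
      (b11 * b22 - b12 ^ 2) * P ^ 2 := by
    linear_combination (-(b11 * P)) * h0
  have h1 : (b11 * b22 - b12 ^ 2) * P ^ 2 ≤ (b11 * b22 - b12 ^ 2) * (b11 * δ) ^ 2 := by
    have e2 : (b11 * b22 - b12 ^ 2) * (b11 * δ) ^ 2 = b11 ^ 2 * (Q ^ 2 - P * R) := by
      rw [hq]
      ring
    rw [e2, e1]
    nlinarith [sq_nonneg (b11 * Q - b12 * P)]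
  have h2 : P ^ 2 ≤ (b11 * δ) ^ 2 := le_of_mul_le_mul_left h1 (by linarith)
  have h3 : |P| ≤ b11 * δ := abs_le_of_sq_le_sq h2 (by positivity)
  nlinarith

theorem tb_thm : S_tb := by
  intro p q r b11 b12 b22 L Δ hL hΔ h11 h22 h11' h22' h12 hd
  obtain ⟨d, hdd⟩ : ∃ d, d = b11 * b22 - b12 ^ 2 := ⟨_, rfl⟩
  have hd1 : 1 ≤ d := by rw [hdd]; exact hd
  have hd0 : d ≠ 0 := by linarith
  have hd4 : d ≤ 4 := by
    rw [hdd]
    nlinarith [sq_nonneg b12]
  obtain ⟨tm, htm⟩ : ∃ tm, tm = -(b22 * p - 2 * b12 * q + b11 * r) / (2 * d) := ⟨_, rfl⟩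
  have htm' : 2 * d * tm = -(b22 * p - 2 * b12 * q + b11 * r) := by
    rw [htm]
    field_simp
  obtain ⟨P, hP⟩ : ∃ P, P = p + tm * b11 := ⟨_, rfl⟩
  obtain ⟨Q, hQ⟩ : ∃ Q, Q = q + tm * b12 := ⟨_, rfl⟩
  obtain ⟨R, hR⟩ : ∃ R, R = r + tm * b22 := ⟨_, rfl⟩
  have h0 : b22 * P - 2 * b12 * Q + b11 * R = 0 := by
    rw [hP, hQ, hR]
    rw [hdd] at htm'
    linear_combination htm'
  have hnn : 0 ≤ (Q ^ 2 - P * R) / d := by
    apply div_nonneg _ (by linarith)
    have e1 : b11 ^ 2 * (Q ^ 2 - P * R) = (b11 * Q - b12 * P) ^ 2 + d * P ^ 2 := by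
      rw [hdd]
      linear_combination (-(b11 * P)) * h0
    have h1 : 0 ≤ b11 ^ 2 * (Q ^ 2 - P * R) := by
      rw [e1]
      positivity
    exact nonneg_of_mul_nonneg_right h1 (by positivity)
  obtain ⟨δ, hδ⟩ : ∃ δ, δ = √((Q ^ 2 - P * R) / d) := ⟨_, rfl⟩
  have hδ0 : 0 ≤ δ := by rw [hδ]; exact Real.sqrt_nonneg _
  have hδ2 : Q ^ 2 - P * R = d * δ ^ 2 := by
    rw [hδ, Real.sq_sqrt hnn]
    field_simp
  have hPb : |P| ≤ 2 * δ :=
    ent P Q R b11 b12 b22 δ h11 hd h11' hδ0 h0 (by rw [hδ2, hdd])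
  have hRb : |R| ≤ 2 * δ :=
    ent R Q P b22 b12 b11 δ h22 (by linarith) h22' hδ0 (by linarith)
      (by rw [mul_comm R P, hδ2, hdd, mul_comm b22 b11])
  have hQb : |Q| ≤ 3 * δ := by
    apply abs_le_of_sq_le_sq _ (by positivity)
    have h1 : P * R ≤ |P| * |R| := by
      rw [← abs_mul]
      exact le_abs_self _
    have h2 : |P| * |R| ≤ (2 * δ) * (2 * δ) :=
      mul_le_mul hPb hRb (abs_nonneg _) (by positivity)
    have h3 : d * δ ^ 2 ≤ 4 * δ ^ 2 := mul_le_mul_of_nonneg_right hd4 (sq_nonneg δ)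
    nlinarith [sq_nonneg δ]
  set e := 7 * Δ / L with he
  have he0 : 0 ≤ e := by positivity
  have hsub : {t : ℝ | L ≤ |p + t * b11| + |q + t * b12| + |r + t * b22| ∧
      |(p + t * b11) * (r + t * b22) - (q + t * b12) ^ 2| ≤ Δ} ⊆
      Icc (tm + (δ - e)) (tm + (δ + e)) ∪ Icc (tm + (-δ - e)) (tm + (-δ + e)) := by
    rintro t ⟨h1, h2⟩
    obtain ⟨σ, hσ⟩ : ∃ σ, σ = t - tm := ⟨_, rfl⟩
    have e1 : p + t * b11 = P + σ * b11 := by rw [hσ, hP]; ring
    have e2 : q + t * b12 = Q + σ * b12 := by rw [hσ, hQ]; ring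
    have e3 : r + t * b22 = R + σ * b22 := by rw [hσ, hR]; ring
    rw [e1, e2, e3] at h1 h2
    have e4 : (P + σ * b11) * (R + σ * b22) - (Q + σ * b12) ^ 2 =
        d * (|σ| ^ 2 - δ ^ 2) := by
      rw [sq_abs]
      rw [hdd] at hδ2 ⊢
      linear_combination σ * h0 - hδ2
    rw [e4] at h2
    have h3 : |P + σ * b11| ≤ 2 * δ + |σ| * 2 := by
      refine (abs_add_le _ _).trans ?_
      rw [abs_mul, abs_of_pos h11]
      have := mul_le_mul_of_nonneg_left h11' (abs_nonneg σ)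
      linarith
    have h4 : |Q + σ * b12| ≤ 3 * δ + |σ| * 1 := by
      refine (abs_add_le _ _).trans ?_
      rw [abs_mul]
      have := mul_le_mul_of_nonneg_left h12 (abs_nonneg σ)
      linarith
    have h5 : |R + σ * b22| ≤ 2 * δ + |σ| * 2 := by
      refine (abs_add_le _ _).trans ?_
      rw [abs_mul, abs_of_pos h22]
      have := mul_le_mul_of_nonneg_left h22' (abs_nonneg σ)
      linarith
    have hσ0 := abs_nonneg σ
    have h6 : L / 7 ≤ |σ| + δ := by linarith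
    have h7 : |(|σ| - δ)| * (|σ| + δ) ≤ Δ := by
      have e5 : |(|σ| - δ)| * (|σ| + δ) = |(|σ| ^ 2 - δ ^ 2)| := by
        have h9 : |(|σ| + δ)| = |σ| + δ := abs_of_nonneg (add_nonneg (abs_nonneg σ) hδ0)
        calc |(|σ| - δ)| * (|σ| + δ) = |(|σ| - δ)| * |(|σ| + δ)| := by rw [h9]
          _ = |(|σ| - δ) * (|σ| + δ)| := (abs_mul _ _).symm
          _ = _ := by congr 1; ring
      rw [e5]
      rw [abs_mul, abs_of_pos (by linarith : (0 : ℝ) < d)] at h2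
      have := le_mul_of_one_le_left (abs_nonneg (|σ| ^ 2 - δ ^ 2)) hd1
      linarith
    have h8 : |(|σ| - δ)| ≤ e := by
      have h9 : |(|σ| - δ)| * (L / 7) ≤ Δ :=
        (mul_le_mul_of_nonneg_left h6 (abs_nonneg _)).trans h7
      rw [he, le_div_iff₀ hL]
      linarith
    rw [abs_le] at h8
    rcases abs_cases σ with ⟨h, _⟩ | ⟨h, _⟩
    · left
      rw [h] at h8
      constructor <;> linarith [h8.1, h8.2]
    · right
      rw [h] at h8
      constructor <;> linarith [h8.1, h8.2]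
  refine (measure_mono hsub).trans ((measure_union_le _ _).trans ?_)
  rw [Real.volume_Icc, Real.volume_Icc, ← ENNReal.ofReal_add (by linarith) (by linarith)]
  apply ENNReal.ofReal_le_ofReal
  have h28 : 28 * Δ / L = 4 * e := by rw [he]; ring
  have h100 : 28 * Δ / L ≤ 100 * Δ / L := by
    apply div_le_div_of_nonneg_right _ hL.le
    linarith
  linarith

end Pool.Agent.W975.PC
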